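import Pool.Agent.W221.NS.Stm

/-! PCONT: parametric integrals over balls are continuous. -/

set_option autoImplicit false

namespace Pool.Agent.W333.MD

open MeasureTheory Set Metric Filter Topology
open H459R3.NS W221.NS

theorem slice_cont {α β : ℝ} {F : ℝ → V → ℝ}
    (hF : ContinuousOn (fun z : ℝ × V => F z.1 z.2) (Ioo α β ×ˢ univ)) {t : ℝ} (ht : t ∈ Ioo α β) :
    Continuous (F t) := by
  have h1 : ContinuousOn (fun z : V => ((t, z) : ℝ × V)) univ := by fun_prop
  have h2 := hF.comp h1 (fun z _ => ⟨ht, mem_univ z⟩)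
  exact continuousOn_univ.1 h2

theorem t_PCONT : S_PCONT := by
  intro α β F a ρ hF t0 ht0
  have hopen : Ioo α β ∈ 𝓝 t0 := isOpen_Ioo.mem_nhds ht0
  obtain ⟨ε, hε, hsub⟩ := Metric.nhds_basis_closedBall.mem_iff.1 hopen
  have hK : IsCompact (closedBall t0 ε ×ˢ closedBall a ρ) :=
    (isCompact_closedBall t0 ε).prod (isCompact_closedBall a ρ)
  obtain ⟨M, hM⟩ := hK.exists_bound_of_continuousOn
    (hF.mono (prod_mono hsub (subset_univ _)))
  apply ContinuousAt.continuousWithinAt
  have hfin : IsFiniteMeasure (volume.restrict (ball a ρ)) :=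
    ⟨by rw [Measure.restrict_apply_univ]; exact measure_ball_lt_top⟩
  refine continuousAt_of_dominated (bound := fun _ => M) ?_ ?_ (integrable_const M) ?_
  · filter_upwards [hopen] with t ht
    exact (slice_cont hF ht).aestronglyMeasurable
  · filter_upwards [closedBall_mem_nhds t0 hε] with t ht
    refine (ae_restrict_iff' measurableSet_ball).2 (Eventually.of_forall fun z hz => ?_)
    exact hM (t, z) ⟨ht, ball_subset_closedBall hz⟩
  · refine Eventually.of_forall fun z => ?_
    have h1 : ContinuousOn (fun t : ℝ => ((t, z) : ℝ × V)) (Ioo α β) := by fun_prop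
    have h2 := hF.comp h1 (fun t ht => ⟨ht, mem_univ z⟩)
    exact (h2 t0 ht0).continuousAt hopen

end Pool.Agent.W333.MD
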